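import Pool.Agent.Helper69.LT.St

/-!
# Project LT, module Prod: the values of the weights
-/

set_option autoImplicit false

open scoped BigOperators ENNReal
open Pool.LE Pool.NL

namespace Pool.LT

namespace ProdM

variable {V : Type} [DecidableEq V]

private theorem con_mono_prodM {η ω : Finset (Sym2 V)} (h : η ⊆ ω) {a b : V} (hc : con η a b) :
    con ω a b := by
  refine SimpleGraph.Reachable.mono ?_ hc
  intro x y hxy
  simp only [gr, SimpleGraph.fromEdgeSet_adj] at hxy ⊢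
  exact ⟨h hxy.1, hxy.2⟩

private theorem prod_dw (ρ k : V → ℝ) (S : Finset V) :
    (∏ y ∈ S, dw ρ k y).fst = ∏ y ∈ S, ρ y ∧
      (∏ y ∈ S, dw ρ k y).snd = -((∏ y ∈ S, ρ y) * ∑ y ∈ S, k y) := by
  induction S using Finset.induction_on with
  | empty => simp
  | insert a S ha ih =>
    rw [Finset.prod_insert ha, Finset.prod_insert ha, Finset.sum_insert ha]
    obtain ⟨h1, h2⟩ := ih
    have e1 : (dw ρ k a).fst = ρ a := by
      unfold dw
      simp
    have e2 : (dw ρ k a).snd = -(ρ a * k a) := by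
      unfold dw
      simp
    constructor
    · rw [TrivSqZeroExt.fst_mul, h1, e1]
    · rw [TrivSqZeroExt.snd_mul, h1, h2, e1, e2]
      simp only [smul_eq_mul, MulOpposite.smul_eq_mul_unop, MulOpposite.unop_op]
      ring

open Classical in
private theorem pw_eq (L : Finset V) (ρ k : V → ℝ) (ω : Finset (Sym2 V)) (v : V) :
    (pw L (dw ρ k) ω v).fst = pw L ρ ω v ∧
      (pw L (dw ρ k) ω v).snd = -(pw L ρ ω v * ∑ y ∈ L, ind (con ω v y) * k y) := by
  have h := prod_dw ρ k (L.filter (fun y => con ω v y))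
  have e : ∑ y ∈ L, ind (con ω v y) * k y = ∑ y ∈ L.filter (fun y => con ω v y), k y := by
    rw [Finset.sum_filter]
    refine Finset.sum_congr rfl fun y _ => ?_
    unfold ind
    split_ifs <;> simp
  rw [e]
  exact h

private theorem pw_bd (L : Finset V) (ρ : V → ℝ) (ω : Finset (Sym2 V)) (v : V)
    (h : ∀ y, 0 ≤ ρ y ∧ ρ y ≤ 1) : 0 ≤ pw L ρ ω v ∧ pw L ρ ω v ≤ 1 :=
  ⟨Finset.prod_nonneg fun y _ => (h y).1, Finset.prod_le_one (fun y _ => (h y).1) fun y _ => (h y).2⟩

private theorem mT_fst (L : Finset V) (ρ k : V → ℝ) (ω : Finset (Sym2 V)) (v x : V) :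
    (mT L (dw ρ k) ω v x).fst = ind (con ω v x) * pw L ρ ω v := by
  unfold mT ind
  split_ifs
  · rw [(pw_eq L ρ k ω v).1, one_mul]
  · simp

private theorem mT_snd (L : Finset V) (ρ k : V → ℝ) (ω : Finset (Sym2 V)) (v x : V) :
    (mT L (dw ρ k) ω v x).snd =
      -(ind (con ω v x) * pw L ρ ω v * ∑ y ∈ L, ind (con ω v y) * k y) := by
  unfold mT
  split_ifs with h
  · rw [(pw_eq L ρ k ω v).2]
    have : ind (con ω v x) = 1 := if_pos h
    rw [this, one_mul]
  · have : ind (con ω v x) = 0 := if_neg h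
    rw [this]
    simp

private theorem ind_bd (P : Prop) : 0 ≤ ind P ∧ ind P ≤ 1 := by
  unfold ind
  split_ifs <;> norm_num

private theorem mT_fst_bd (L : Finset V) (ρ k : V → ℝ) (ω : Finset (Sym2 V)) (v x : V)
    (h : ∀ y, 0 ≤ ρ y ∧ ρ y ≤ 1) :
    0 ≤ (mT L (dw ρ k) ω v x).fst ∧ (mT L (dw ρ k) ω v x).fst ≤ 1 := by
  rw [mT_fst]
  have h1 := ind_bd (con ω v x)
  have h2 := pw_bd L ρ ω v h
  exact ⟨mul_nonneg h1.1 h2.1, mul_le_one₀ h1.2 h2.1 h2.2⟩

private theorem mT_snd_bd (L : Finset V) (ρ k : V → ℝ) (ω : Finset (Sym2 V)) (v x : V)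
    (h : ∀ y, 0 ≤ ρ y ∧ ρ y ≤ 1) :
    ENNReal.ofReal |(mT L (dw ρ k) ω v x).snd| ≤ kap L k ω v := by
  classical
  have h1 := ind_bd (con ω v x)
  have h2 := pw_bd L ρ ω v h
  have h3 : 0 ≤ ind (con ω v x) * pw L ρ ω v := mul_nonneg h1.1 h2.1
  have h4 : ind (con ω v x) * pw L ρ ω v ≤ 1 := mul_le_one₀ h1.2 h2.1 h2.2
  have e : ∑ y ∈ L, ind (con ω v y) * k y = ∑ y ∈ L.filter (fun y => con ω v y), k y := by
    rw [Finset.sum_filter]
    refine Finset.sum_congr rfl fun y _ => ?_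
    unfold ind
    split_ifs <;> simp
  have h5 : |(mT L (dw ρ k) ω v x).snd| ≤ ∑ y ∈ L.filter (fun y => con ω v y), |k y| := by
    rw [mT_snd, abs_neg, abs_mul, abs_of_nonneg h3, e]
    calc ind (con ω v x) * pw L ρ ω v * |∑ y ∈ L.filter (fun y => con ω v y), k y|
        ≤ 1 * |∑ y ∈ L.filter (fun y => con ω v y), k y| :=
          mul_le_mul_of_nonneg_right h4 (abs_nonneg _)
      _ = |∑ y ∈ L.filter (fun y => con ω v y), k y| := one_mul _
      _ ≤ _ := Finset.abs_sum_le_sum_abs _ _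
  refine (ENNReal.ofReal_le_ofReal h5).trans ?_
  rw [ENNReal.ofReal_sum_of_nonneg fun y _ => abs_nonneg _]
  unfold kap
  exact le_of_eq (by congr)

private theorem kap_mono (L : Finset V) (k : V → ℝ) (η ω : Finset (Sym2 V)) (h : η ⊆ ω) (v b : V)
    (hb : con ω v b) : kap L k η b ≤ kap L k ω v := by
  classical
  unfold kap
  refine Finset.sum_le_sum_of_subset ?_
  intro y hy
  rw [Finset.mem_filter] at hy ⊢
  exact ⟨hy.1, hb.trans (con_mono_prodM h hy.2)⟩

private theorem rst_sub (ω : Finset (Sym2 V)) (A : Set V) : rst ω A ⊆ ω := by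
  classical
  exact Finset.filter_subset _ _

end ProdM

open ProdM in
theorem hProd : SProd := by
  intro V _ L ρ k ω v x A h
  refine ⟨mT_fst L ρ k ω v x, mT_snd L ρ k ω v x, (pw_bd L ρ ω v h).1, (pw_bd L ρ ω v h).2,
    mT_fst_bd L ρ k ω v x h, ?_, mT_snd_bd L ρ k ω v x h, ?_,
    fun η hη b hb => kap_mono L k η ω hη v b hb⟩
  · unfold mA
    split_ifs
    · simp
    · exact mT_fst_bd L ρ k _ v x h
  · unfold mA
    split_ifs
    · simp
    · exact (mT_snd_bd L ρ k _ v x h).trans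
        (kap_mono L k _ ω (rst_sub ω A) v v (SimpleGraph.Reachable.refl v))

end Pool.LT
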